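import Pool.Agent.H491R3.AM4

/-!
# Hooley's conjecture for almost all moduli in automatic sets

Nothing is used besides Mathlib in the statement. `Nat.digits b v` is the list of the digits of `v` in base `b`, the least
significant digit first; a finite automaton reading these lists decides which integers are accepted.
-/

set_option autoImplicit false

namespace Pool.Agent.Results.MP_5d318d_nt.AutomaticModuli

open Finset Filter

/-- `ψ(x; q, a) = ∑_{n ≤ x, n ≡ a mod q} Λ(n)` for `0 ≤ a < q` -/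
noncomputable def psiAP (x : ℝ) (q a : ℕ) : ℝ :=
  ∑ n ∈ (Icc 1 ⌊x⌋₊).filter (fun n => n % q = a), ArithmeticFunction.vonMangoldt n

/-- The variance `G(x,q) = ∑_{a mod q, (a,q)=1} (ψ(x;q,a) - x/φ(q))²`. -/
noncomputable def G (x : ℝ) (q : ℕ) : ℝ :=
  ∑ a ∈ (range q).filter (fun a => Nat.Coprime a q), (psiAP x q a - x / (Nat.totient q : ℝ)) ^ 2

/-- `|G(x,Q) - x log Q| ≤ ε x log Q` for ALL real `x` with `Q ≤ x ≤ Q R`. -/
def Good (ε R : ℝ) (Q : ℕ) : Prop :=
  ∀ x : ℝ, (Q : ℝ) ≤ x → x ≤ Q * R → |G x Q - x * Real.log Q| ≤ ε * (x * Real.log Q)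

open Classical in
/-- the number of the `v < N` which are accepted by the automaton `M` (reading the digits of `v` in base `b`, the least
significant digit first) and have the property `E` -/
noncomputable def acc {σ : Type} (b : ℕ) (M : DFA ℕ σ) (N : ℕ) (E : ℕ → Prop) : ℕ :=
  ((range N).filter (fun v => Nat.digits b v ∈ M.accepts ∧ E v)).card

lemma acc_mono {σ : Type} (b : ℕ) (M : DFA ℕ σ) (N : ℕ) (E F : ℕ → Prop) (h : ∀ v, v < N → E v → F v) :
    acc b M N E ≤ acc b M N F := by
  classical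
  unfold acc
  apply card_le_card
  intro v hv
  rw [mem_filter, mem_range] at hv ⊢
  exact ⟨hv.1, hv.2.1, h v hv.1 hv.2.2⟩

lemma acc_true {σ : Type} (b : ℕ) (M : DFA ℕ σ) (N : ℕ) [DecidablePred fun v => Nat.digits b v ∈ M.accepts] :
    acc b M N (fun _ => True) = ((range N).filter fun v => Nat.digits b v ∈ M.accepts).card := by
  unfold acc
  congr 1
  ext v
  simp only [mem_filter, and_true]

/-- **Hooley's conjecture for the moduli in automatic sets.** Let `S` be an automatic set (the set of the integers `v ≥ 0`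
whose digits in base `b` are accepted by the finite automaton `M`) of more than polylogarithmic size: for every `k` there
are infinitely many `N` such that more than `(log N) ^ k` elements of `S` are smaller than `N`. Let `B`, `A`, `U`, the
integer `μ ≠ 0` and `0 < ε ≤ 1` be fixed, let `N` be large, and let `c` be an arbitrary integer with `|c| ≤ B N`. Then all
the elements `v < N` of `S`, up to a proportion of at most `1 / (log N) ^ U` of them, have the following property: the
modulus `Q = c + μ v` is smaller than `N / (log N) ^ A`, or it satisfies `|G(x,Q) - x log Q| ≤ ε x log Q` for ALL real `x`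
with `Q ≤ x ≤ Q (log N) ^ A`. -/
theorem result {σ : Type} [Fintype σ] (b : ℕ) (hb : 2 ≤ b) (M : DFA ℕ σ)
    (hS : ∀ k : ℕ, ∃ᶠ N : ℕ in atTop, Real.log N ^ k < (acc b M N (fun _ => True) : ℝ))
    (B A U : ℕ) (μ : ℤ) (hμ : μ ≠ 0) (ε : ℝ) (hε : 0 < ε) (hε1 : ε ≤ 1) :
    ∃ N₀ : ℕ, ∀ N : ℕ, N₀ ≤ N → ∀ c : ℤ, |c| ≤ B * (N : ℤ) →
      (acc b M N (fun v => (N : ℝ) ≤ ((c + μ * v : ℤ) : ℝ) * Real.log N ^ A ∧
        ¬ Good ε (Real.log N ^ A) (c + μ * v).toNat) : ℝ) ≤ acc b M N (fun _ => True) / Real.log N ^ U := by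
  classical
  obtain ⟨B', e₀, N₁, hB', _, h1⟩ := Pool.Agent.H491R3.AM.aut_badq b hb M
    (fun k => (hS k).mono (fun N hN => by rwa [acc_true] at hN)) μ hμ B (A + 1) U ε hε hε1
  obtain ⟨N₂, h2⟩ := Pool.Agent.H491R3.AM.badq_of_log B' e₀ A hB' ε
  refine ⟨N₁ + N₂, fun N hN c hc => ?_⟩
  have h3 := h1 N (by omega) c hc
  rw [acc_true]
  refine le_trans ?_ h3
  have h4 := acc_mono b M N (fun v => (N : ℝ) ≤ ((c + μ * v : ℤ) : ℝ) * Real.log N ^ A ∧
        ¬ Good ε (Real.log N ^ A) (c + μ * v).toNat)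
    (fun v => Pool.Agent.Y958.RM.BadQ ε (A + 1) (Nat.log B' N + 1 + e₀) B' (c + μ * v)) (by
      rintro v _ ⟨g1, g2⟩
      refine h2 N (by omega) _ g1 ?_
      unfold Good at g2
      push Not at g2
      obtain ⟨x, g3, g4, g5⟩ := g2
      exact ⟨x, g3, g4, not_le.2 g5⟩)
  exact Nat.cast_le.2 h4

end Pool.Agent.Results.MP_5d318d_nt.AutomaticModuli
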