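import Pool.Agent.R501.PV5

/-!
# Hooley's conjecture for almost all moduli which arise by a rearrangement of the digits of an integer

Nothing is used besides Mathlib in the statement of the variance. Definitions used from the starting file
`Pool.Agent.TH872.An1` (namespace `Pool.Agent.TH872.An`): `Spread b k η d`: the integers `d i` (`i < k`) are digits in
base `b`, and no digit is taken at more than `(1 - η) k` of the `k` places; `V b d σ`: the integer with the permuted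
digits, thus the integer with the digit `d (σ i)` at the place `i`, in base `b`.
-/

set_option autoImplicit false

namespace Pool.Agent.Results.MP_5d318d_nt.DigitPermutationModuli

open Finset Pool.Agent.TH872.An

/-- `ψ(x; q, a) = ∑_{n ≤ x, n ≡ a mod q} Λ(n)` for `0 ≤ a < q` -/
noncomputable def psiAP (x : ℝ) (q a : ℕ) : ℝ :=
  ∑ n ∈ (Icc 1 ⌊x⌋₊).filter (fun n => n % q = a), ArithmeticFunction.vonMangoldt n

/-- The variance `G(x,q) = ∑_{a mod q, (a,q)=1} (ψ(x;q,a) - x/φ(q))²`. -/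
noncomputable def G (x : ℝ) (q : ℕ) : ℝ :=
  ∑ a ∈ (range q).filter (fun a => Nat.Coprime a q), (psiAP x q a - x / (Nat.totient q : ℝ)) ^ 2

/-- `|G(x,Q) - x log Q| ≤ ε x log Q` for ALL real `x` with `Q ≤ x ≤ Q R`. -/
def Good (ε R : ℝ) (Q : ℕ) : Prop :=
  ∀ x : ℝ, (Q : ℝ) ≤ x → x ≤ Q * R → |G x Q - x * Real.log Q| ≤ ε * (x * Real.log Q)

lemma bad_iff (ε : ℝ) (A k b : ℕ) (hb : 0 < b) (Q : ℤ) :
    Pool.Agent.Y958.RM.BadQ ε A k b Q ↔ (b : ℤ) ^ k ≤ Q * (k : ℤ) ^ A ∧ ¬ Good ε ((k : ℝ) ^ A) Q.toNat := by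
  unfold Pool.Agent.Y958.RM.BadQ Good
  apply and_congr_right
  intro h
  have hQ0 : 0 ≤ Q := by
    by_contra hcon
    push Not at hcon
    have e1 : Q * (k : ℤ) ^ A ≤ 0 := mul_nonpos_of_nonpos_of_nonneg hcon.le (by positivity)
    have e2 : (0 : ℤ) < (b : ℤ) ^ k := by positivity
    linarith
  have hQ : ((Q.toNat : ℕ) : ℝ) = (Q : ℝ) := by
    have : ((Q.toNat : ℕ) : ℤ) = Q := Int.toNat_of_nonneg hQ0
    exact_mod_cast this
  rw [hQ]
  push Not
  constructor
  · rintro ⟨x, h1, h2, h3⟩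
    exact ⟨x, h1, h2, h3⟩
  · rintro ⟨x, h1, h2, h3⟩
    exact ⟨x, h1, h2, h3⟩

open Classical in
/-- **Hooley's conjecture for the rearrangements of the digits of an integer.** Let `b ≥ 2`, `B`, `A`, `U`, the integer
`μ ≠ 0`, `η > 0` and `0 < ε ≤ 1` be fixed, let `k` be large, let `d` be an arbitrary sequence of `k` digits in base `b` none
of which is taken at more than `(1 - η) k` places, and let `c` be an arbitrary integer with `|c| ≤ B b ^ k`.

Then for all permutations `σ` of the `k` places, with at most `k! / k ^ U` exceptions, the modulus `Q = c + μ v_σ`, where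
`v_σ` is the integer with the permuted digits, is smaller than `b ^ k / k ^ A` (possibly negative), or it satisfies
`|G(x,Q) - x log Q| ≤ ε x log Q` for ALL real `x` with `Q ≤ x ≤ Q k ^ A`. -/
theorem result (b B A U : ℕ) (hb : 2 ≤ b) (μ : ℤ) (hμ : μ ≠ 0) (η ε : ℝ) (hη : 0 < η) (hε : 0 < ε) (hε1 : ε ≤ 1) :
    ∃ k₀ : ℕ, ∀ k : ℕ, k₀ ≤ k → ∀ d : Fin k → ℕ, Spread b k η d → ∀ c : ℤ, |c| ≤ B * (b : ℤ) ^ k →
      ((univ.filter (fun σ : Equiv.Perm (Fin k) => (b : ℤ) ^ k ≤ (c + μ * V b d σ) * (k : ℤ) ^ A ∧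
        ¬ Good ε ((k : ℝ) ^ A) (c + μ * V b d σ).toNat)).card : ℝ) ≤ k.factorial / (k : ℝ) ^ U := by
  obtain ⟨k₀, h⟩ := Pool.Agent.R501.PV.perm_rare b B A U hb μ hμ η hη ε hε hε1
  refine ⟨k₀, fun k hk d hd c hc => ?_⟩
  exact h k hk d hd c hc _ (fun σ hσ => (bad_iff ε A k b (by omega) _).2 hσ)

end Pool.Agent.Results.MP_5d318d_nt.DigitPermutationModuli
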