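import Pool.Agent.R460.GQ.Vr

/-!
# Hooley's conjecture for almost all moduli `Q` in the residue classes of EVERY modulus `m ≤ X ^ (2 / 3 - ρ)`

For every modulus `m ≤ X ^ (2 / 3 - ρ)`, without any exceptional `m`, and every residue class `b` modulo `m` with
`gcd(b, m) ≤ (log X)^T`, all but at most `X / (m (log X)^A)` of the integers `Q ≡ b (mod m)` with
`X / (log X)^K ≤ Q ≤ X` satisfy `|G(x, Q) - x log Q| ≤ ε x log Q` for ALL real `x` with `Q ≤ x ≤ Q (log X)^K`.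

Nothing is used besides Mathlib in the statement.

Proof: sums of types I and II in mean square over all fractions with the denominator `m` (`R460/GH`, `R460/GQ`) give,
for all but few `Q` in the class and all small `h`, the correlations of the von Mangoldt function with the shift `h Q`,
up to all `N₁ ≤ X (log X)^K`; then `G(x, Q)` is computed as in `TH894/PV` (Bateman-Horn constants on average over `h`).
-/

set_option autoImplicit false

namespace Pool.Agent.Results.MP_5d318d_nt.ModuliInClasses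

open Finset

/-- `ψ(x; Q, a) = ∑_{n ≤ x, n ≡ a mod Q} Λ(n)` for `0 ≤ a < Q` -/
noncomputable def psiAP (x : ℝ) (Q a : ℕ) : ℝ :=
  ∑ n ∈ (Icc 1 ⌊x⌋₊).filter (fun n => n % Q = a), ArithmeticFunction.vonMangoldt n

/-- The variance `G(x,Q) = ∑_{a mod Q, (a,Q)=1} (ψ(x;Q,a) - x/φ(Q))²`. -/
noncomputable def G (x : ℝ) (Q : ℕ) : ℝ :=
  ∑ a ∈ (range Q).filter (fun a => Nat.Coprime a Q), (psiAP x Q a - x / (Nat.totient Q : ℝ)) ^ 2

/-- `|G(x,Q) - x log Q| ≤ ε x log Q` for ALL real `x` with `Q ≤ x ≤ Q R`. -/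
def Good (ε R : ℝ) (Q : ℕ) : Prop :=
  ∀ x : ℝ, (Q : ℝ) ≤ x → x ≤ Q * R → |G x Q - x * Real.log Q| ≤ ε * (x * Real.log Q)

/-- The integers `Q ≡ b (mod m)` with `X / (log X)^K ≤ Q ≤ X` for which `Good ε ((log X)^K) Q` is false. -/
def exceptional (ε : ℝ) (K : ℕ) (X : ℝ) (m : ℕ) (b : ℤ) : Set ℕ :=
  {Q : ℕ | 0 < Q ∧ (Q : ℝ) ≤ X ∧ X ≤ Q * Real.log X ^ K ∧ (Q : ℤ) ≡ b [ZMOD m] ∧ ¬ Good ε (Real.log X ^ K) Q}

/-- For all `ε, ρ > 0`, `A`, `K` and `T` and all sufficiently large real `X`: for EVERY integer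
`1 ≤ m ≤ X ^ (2 / 3 - ρ)` and every integer `b` with `gcd(b, m) ≤ (log X)^T`, all but at most `X / (m (log X)^A)` of
the integers `Q ≡ b (mod m)` with `X / (log X)^K ≤ Q ≤ X` satisfy `Good ε ((log X)^K) Q`. -/
theorem result (ε ρ : ℝ) (hε : 0 < ε) (hρ : 0 < ρ) (A K T : ℕ) :
    ∃ X₀ : ℝ, ∀ X : ℝ, X₀ ≤ X → ∀ m : ℕ, 1 ≤ m → (m : ℝ) ≤ X ^ (2 / 3 - ρ) → ∀ b : ℤ,
      (Int.gcd b m : ℝ) ≤ Real.log X ^ T →
        (exceptional ε K X m b).Finite ∧ ((exceptional ε K X m b).ncard : ℝ) ≤ X / (m * Real.log X ^ A) := by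
  classical
  obtain ⟨ρ', hρ'⟩ : ∃ ρ', ρ' = min ρ (1 / 3) := ⟨_, rfl⟩
  have hρ0 : 0 < ρ' := by rw [hρ']; exact lt_min hρ (by norm_num)
  obtain ⟨ε', hε'⟩ : ∃ ε', ε' = min ε 1 := ⟨_, rfl⟩
  have hε0 : 0 < ε' := by rw [hε']; exact lt_min hε one_pos
  have hε1 : ε' ≤ 1 := by rw [hε']; exact min_le_right _ _
  have hεε : ε' ≤ ε := by rw [hε']; exact min_le_left _ _
  obtain ⟨Y₀, h0⟩ := Pool.Agent.R460.GQ.var_main Pool.Agent.R460.GQ.errQ_all ρ' ε' hρ0
    (by rw [hρ']; exact min_le_right _ _) hε0 hε1 (A + 1) (K + 1) T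
  refine ⟨max (max (Real.exp 100) Y₀) 4, fun x hx m hm1 hm b hb => ?_⟩
  have hxe : Real.exp 100 ≤ x := (le_max_left _ _).trans ((le_max_left _ _).trans hx)
  have hxX₀ : (Y₀ : ℝ) ≤ x := (le_max_right _ _).trans ((le_max_left _ _).trans hx)
  have hx4 : 4 ≤ x := (le_max_right _ _).trans hx
  have hx0 : 0 < x := by linarith
  have hL : 100 ≤ Real.log x := by
    rw [Real.le_log_iff_exp_le hx0]
    exact hxe
  obtain ⟨X, hX⟩ : ∃ X, X = ⌈x⌉₊ := ⟨_, rfl⟩
  have hxX : x ≤ X := by rw [hX]; exact Nat.le_ceil x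
  have hXx : (X : ℝ) ≤ x + 1 := by rw [hX]; exact (Nat.ceil_lt_add_one hx0.le).le
  have hX2 : (X : ℝ) ≤ 2 * x := by linarith
  have hXX₀ : Y₀ ≤ X := by exact_mod_cast hxX₀.trans hxX
  have hX0 : (0 : ℝ) < X := by linarith
  have hLX : Real.log x ≤ Real.log X := Real.log_le_log hx0 hxX
  obtain ⟨l, hl⟩ : ∃ l, l = Real.log x := ⟨_, rfl⟩
  obtain ⟨L, hLd⟩ : ∃ L, L = Real.log (X : ℝ) := ⟨_, rfl⟩
  have hm0 : (0 : ℝ) < m := by exact_mod_cast hm1
  have hmX : (m : ℝ) ≤ (X : ℝ) ^ (2 / 3 - ρ') := by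
    refine hm.trans ?_
    have e1 : x ^ (2 / 3 - ρ) ≤ x ^ (2 / 3 - ρ') :=
      Real.rpow_le_rpow_of_exponent_le (by linarith) (by
        have : ρ' ≤ ρ := by rw [hρ']; exact min_le_left _ _
        linarith)
    refine e1.trans (Real.rpow_le_rpow hx0.le hxX ?_)
    have : ρ' ≤ 1 / 3 := by rw [hρ']; exact min_le_right _ _
    linarith
  have hgcd : (Nat.gcd (b % (m : ℤ)).toNat m : ℝ) ≤ Real.log X ^ T := by
    rw [Pool.Agent.R460.GS.gcd_toNat m b hm1]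
    exact hb.trans (pow_le_pow_left₀ (by linarith) hLX _)
  have hmain := h0 X hXX₀ m hm1 hmX (b % (m : ℤ)).toNat hgcd
  rw [← hl] at hL hLX
  rw [← hLd] at hLX hmain
  have hl0 : 0 < l := by linarith
  have hl1 : 1 ≤ l := by linarith
  have hL0 : 0 < L := by linarith
  have hK : 2 * l ^ K ≤ L ^ (K + 1) := by
    calc 2 * l ^ K ≤ L * L ^ K :=
          mul_le_mul (by linarith) (pow_le_pow_left₀ hl0.le hLX _) (by positivity) hL0.le
      _ = L ^ (K + 1) := by ring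
  have hsub : exceptional ε K x m b ⊆
      ((Pool.Agent.R460.GQ.badV (K + 1) ε' X m (b % (m : ℤ)).toNat : Finset ℕ) : Set ℕ) := by
    rintro Q ⟨d1, d2, d3, d4, d5⟩
    rw [mem_coe]
    unfold Pool.Agent.R460.GQ.badV
    rw [mem_filter, mem_Icc, ← hLd]
    rw [← hl] at d3 d5
    have hQ0 : (0 : ℝ) < Q := by exact_mod_cast d1
    have hQ1 : (1 : ℝ) ≤ Q := by exact_mod_cast d1
    unfold Good at d5
    push Not at d5
    obtain ⟨y, y1, y2, y3⟩ := d5
    refine ⟨⟨d1, ?_⟩, Pool.Agent.R460.GS.mod_iff' Q m b hm1 d4, ?_, y, y1, ?_, ?_⟩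
    · exact_mod_cast d2.trans hxX
    · calc (X : ℝ) ≤ 2 * x := hX2
        _ ≤ 2 * (Q * l ^ K) := by linarith
        _ = Q * (2 * l ^ K) := by ring
        _ ≤ Q * L ^ (K + 1) := mul_le_mul_of_nonneg_left hK hQ0.le
    · refine y2.trans (mul_le_mul_of_nonneg_left (le_trans ?_ hK) hQ0.le)
      have : 0 < l ^ K := by positivity
      linarith
    · have hlog : 0 ≤ y * Real.log Q := mul_nonneg (by linarith) (Real.log_nonneg hQ1)
      exact lt_of_le_of_lt (mul_le_mul_of_nonneg_right hεε hlog) y3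
  refine ⟨(finite_toSet _).subset hsub, ?_⟩
  have hc : ((exceptional ε K x m b).ncard : ℝ) ≤
      ((Pool.Agent.R460.GQ.badV (K + 1) ε' X m (b % (m : ℤ)).toNat).card : ℝ) := by
    have := Set.ncard_le_ncard hsub (finite_toSet _)
    rw [Set.ncard_coe_finset] at this
    exact_mod_cast this
  refine hc.trans (hmain.trans ?_)
  rw [← hl, div_le_div_iff₀ (by positivity) (by positivity)]
  have k5 : l ^ (A + 1) ≤ L ^ (A + 1) := pow_le_pow_left₀ hl0.le hLX _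
  calc (X : ℝ) * (m * l ^ A) ≤ (2 * x) * (m * l ^ A) := mul_le_mul_of_nonneg_right hX2 (by positivity)
    _ ≤ x * (m * (l * l ^ A)) := by
        have k3 : 2 ≤ l := by linarith
        have k4 : 0 ≤ x * (m * l ^ A) := by positivity
        nlinarith
    _ = x * (m * l ^ (A + 1)) := by ring
    _ ≤ x * (m * L ^ (A + 1)) := by gcongr

end Pool.Agent.Results.MP_5d318d_nt.ModuliInClasses
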