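import Pool.Agent.R501.PV2

/-!
# Hooley's conjecture for almost all palindromic moduli, and for moduli with mirror-dependent digits

Nothing is used besides Mathlib in the statement of the variance. Definitions used from the starting file
`Pool.Agent.TH872.Transfer` (namespace `Pool.Agent.TH872.Tr`): `num b k E`: the number of the palindromes with exactly
`k` digits in base `b` which have the property `E`; `value b k μ c d z`: the integer `c + μ v`, where `v` has the pair of
digits `d i` at the positions `i` and `k - 1 - i`, for `i < k / 2`, and, if `k` is odd, the middle digit `z`;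
`Prob b k w u E`: the probability of the event `E` if the pairs `d i` and the digit `z` are chosen independently of each
other with the distributions `w i` and `u`; `Pairs b k η w`: the `w i` are distributions of pairs of digits, and two
independent copies of the pair number `i` (`i ≥ 1`) differ in both digits with a probability of at least `η`.
-/

set_option autoImplicit false

namespace Pool.Agent.Results.MP_5d318d_nt.PalindromicModuli

open Finset Pool.Agent.TH872.Tr

/-- `ψ(x; q, a) = ∑_{n ≤ x, n ≡ a mod q} Λ(n)` for `0 ≤ a < q` -/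
noncomputable def psiAP (x : ℝ) (q a : ℕ) : ℝ :=
  ∑ n ∈ (Icc 1 ⌊x⌋₊).filter (fun n => n % q = a), ArithmeticFunction.vonMangoldt n

/-- The variance `G(x,q) = ∑_{a mod q, (a,q)=1} (ψ(x;q,a) - x/φ(q))²`. -/
noncomputable def G (x : ℝ) (q : ℕ) : ℝ :=
  ∑ a ∈ (range q).filter (fun a => Nat.Coprime a q), (psiAP x q a - x / (Nat.totient q : ℝ)) ^ 2

/-- `|G(x,Q) - x log Q| ≤ ε x log Q` for ALL real `x` with `Q ≤ x ≤ Q R`. -/
def Good (ε R : ℝ) (Q : ℕ) : Prop :=
  ∀ x : ℝ, (Q : ℝ) ≤ x → x ≤ Q * R → |G x Q - x * Real.log Q| ≤ ε * (x * Real.log Q)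

lemma bad_iff (ε : ℝ) (A k b : ℕ) (hb : 0 < b) (Q : ℤ) :
    Pool.Agent.Y958.RM.BadQ ε A k b Q ↔ (b : ℤ) ^ k ≤ Q * (k : ℤ) ^ A ∧ ¬ Good ε ((k : ℝ) ^ A) Q.toNat := by
  unfold Pool.Agent.Y958.RM.BadQ Good
  apply and_congr_right
  intro h
  have hQ0 : 0 ≤ Q := by
    by_contra hcon
    push Not at hcon
    have e1 : Q * (k : ℤ) ^ A ≤ 0 := mul_nonpos_of_nonpos_of_nonneg hcon.le (by positivity)
    have e2 : (0 : ℤ) < (b : ℤ) ^ k := by positivity
    linarith
  have hQ : ((Q.toNat : ℕ) : ℝ) = (Q : ℝ) := by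
    have : ((Q.toNat : ℕ) : ℤ) = Q := Int.toNat_of_nonneg hQ0
    exact_mod_cast this
  rw [hQ]
  push Not
  constructor
  · rintro ⟨x, h1, h2, h3⟩
    exact ⟨x, h1, h2, h3⟩
  · rintro ⟨x, h1, h2, h3⟩
    exact ⟨x, h1, h2, h3⟩

open Classical in
lemma num_mono (b k : ℕ) (E F : ℕ → Prop) (h : ∀ v : ℕ, IsPalindrome b k v → E v → F v) : num b k E ≤ num b k F := by
  unfold num
  apply card_le_card
  intro v hv
  rw [mem_filter] at hv ⊢
  exact ⟨hv.1, hv.2.1, h v hv.2.1 hv.2.2⟩

/-- **Hooley's conjecture for palindromic moduli.** Let `b ≥ 2`, `B`, `A`, `U`, the integer `μ ≠ 0`, `η > 0` and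
`0 < ε ≤ 1` be fixed, let `k` be large, and let `c` be an arbitrary integer with `|c| ≤ B b ^ k`.

(1) Let `v` be a random integer with `k` digits in base `b`, such that the pairs formed by the digits at the positions `i`
and `k - 1 - i` are independent of each other for different `i`. Inside of a pair the digits may depend on each other in
an arbitrary way; the distributions of the pairs are arbitrary (and depend on the position and on `k`), only two
independent copies of a pair (with `i ≥ 1`) should differ in both digits with a probability of at least `η`. Then, with a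
probability of at least `1 - 1 / k ^ U`, the modulus `Q = c + μ v` is smaller than `b ^ k / k ^ A`, or it satisfies
`|G(x,Q) - x log Q| ≤ ε x log Q` for ALL real `x` with `Q ≤ x ≤ Q k ^ A`.

(2) In particular this holds for the moduli `Q = c + μ v` with all the palindromes `v` with `k` digits in base `b`, up to
a proportion of at most `1 / k ^ U` of them.

(3) For the palindromes themselves (`c = 0`, `μ = 1`): all palindromes `Q` with exactly `k` digits in base `b`, up to a
proportion of at most `1 / k ^ U`, satisfy `|G(x,Q) - x log Q| ≤ ε x log Q` for all real `x` with `Q ≤ x ≤ Q k ^ A`. -/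
theorem result (b B A U : ℕ) (hb : 2 ≤ b) (μ : ℤ) (hμ : μ ≠ 0) (η ε : ℝ) (hη : 0 < η) (hε : 0 < ε) (hε1 : ε ≤ 1) :
    ∃ k₀ : ℕ, ∀ k : ℕ, k₀ ≤ k →
      (∀ c : ℤ, |c| ≤ B * (b : ℤ) ^ k →
        (∀ (w : ℕ → ℕ × ℕ → ℝ) (u : ℕ → ℝ), Pairs b k η w → (∀ a, 0 ≤ u a) → ∑ a ∈ range b, u a = 1 →
          Prob b k w u (fun d z => (b : ℤ) ^ k ≤ value b k μ c d z * (k : ℤ) ^ A ∧
            ¬ Good ε ((k : ℝ) ^ A) (value b k μ c d z).toNat) ≤ 1 / (k : ℝ) ^ U) ∧
        (num b k (fun v => (b : ℤ) ^ k ≤ (c + μ * v) * (k : ℤ) ^ A ∧ ¬ Good ε ((k : ℝ) ^ A) (c + μ * v).toNat) : ℝ) ≤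
          num b k (fun _ => True) / (k : ℝ) ^ U) ∧
      (num b k (fun Q => ¬ Good ε ((k : ℝ) ^ A) Q) : ℝ) ≤ num b k (fun _ => True) / (k : ℝ) ^ U := by
  obtain ⟨k₀, h⟩ := transfer b B U hb μ _ (Pool.Agent.R501.PV.pal_rare b B A U hb μ hμ ε hε hε1) η hη
  obtain ⟨k₁, h'⟩ := transfer b 0 U hb 1 _ (Pool.Agent.R501.PV.pal_rare b 0 (A + 1) U hb 1 one_ne_zero ε hε hε1) 1 one_pos
  refine ⟨k₀ + k₁ + b + 1, fun k hk => ⟨fun c hc => ?_, ?_⟩⟩
  · exact h k (by omega) c hc (fun Q => (b : ℤ) ^ k ≤ Q * (k : ℤ) ^ A ∧ ¬ Good ε ((k : ℝ) ^ A) Q.toNat)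
      (fun n hn => (bad_iff ε A k b (by omega) n).2 hn)
  · have h1 := (h' k (by omega) 0 (by simp) (fun Q => (b : ℤ) ^ k ≤ Q * (k : ℤ) ^ (A + 1) ∧ ¬ Good ε ((k : ℝ) ^ (A + 1)) Q.toNat)
      (fun n hn => (bad_iff ε (A + 1) k b (by omega) n).2 hn)).2
    refine le_trans ?_ h1
    have h2 : ∀ v : ℕ, IsPalindrome b k v → ¬ Good ε ((k : ℝ) ^ A) v →
        (b : ℤ) ^ k ≤ (0 + 1 * (v : ℤ)) * (k : ℤ) ^ (A + 1) ∧ ¬ Good ε ((k : ℝ) ^ (A + 1)) (0 + 1 * (v : ℤ)).toNat := by
      intro v hv hbad
      rw [zero_add, one_mul, Int.toNat_natCast]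
      have hk1 : 1 ≤ k := by omega
      constructor
      · have e1 : b ^ k = b ^ (k - 1) * b := by rw [← pow_succ]; congr 1; omega
        have e2 : b ^ k ≤ v * k ^ (A + 1) := by
          rw [e1]
          apply Nat.mul_le_mul hv.1
          calc b ≤ k := by omega
            _ = k ^ 1 := (pow_one k).symm
            _ ≤ k ^ (A + 1) := Nat.pow_le_pow_right hk1 (by omega)
        exact_mod_cast e2
      · intro hgood
        apply hbad
        intro x hx1 hx2
        apply hgood x hx1 (hx2.trans _)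
        apply mul_le_mul_of_nonneg_left _ (Nat.cast_nonneg _)
        exact pow_le_pow_right₀ (by exact_mod_cast hk1) (by omega)
    exact Nat.cast_le.2 (num_mono _ _ _ _ h2)

end Pool.Agent.Results.MP_5d318d_nt.PalindromicModuli
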